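import Mathlib

/-!
ZI-RANK (helper121): the rank of an integral pairing, general form (helper427)
-/

set_option autoImplicit false

namespace Pool.Agent.Y427.ZI

open Module

/-- The rank over `ℤ` of a subgroup of `ℤ ^ r` whose `K`-span is everything. -/
theorem rank_sub {K : Type*} [Field K] {r : ℕ} (M : Submodule ℤ (Fin r → ℤ))
    (h : Submodule.span K {x : Fin r → K | ∃ v ∈ M, x = fun j => ((v j : ℤ) : K)} = ⊤) :
    finrank ℤ M = r := by
  apply le_antisymm
  · have := Submodule.finrank_le M
    rwa [Module.finrank_fin_fun] at this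
  · set b := Module.finBasis ℤ M with hb
    have h1 : Submodule.span K {x : Fin r → K | ∃ v ∈ M, x = fun j => ((v j : ℤ) : K)} ≤
        Submodule.span K (Set.range fun k : Fin (finrank ℤ M) =>
          (fun j => (((b k : M) : Fin r → ℤ) j : K) : Fin r → K)) := by
      rw [Submodule.span_le]
      rintro x ⟨v, hv, rfl⟩
      have h2 := b.sum_repr ⟨v, hv⟩
      have h3 : ∀ j, v j = ∑ k, b.repr ⟨v, hv⟩ k * ((b k : M) : Fin r → ℤ) j := by
        intro j
        have h4 := congrArg (fun z : M => (z : Fin r → ℤ) j) h2
        simp only [Submodule.coe_sum, Finset.sum_apply, Submodule.coe_smul, Pi.smul_apply,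
          smul_eq_mul] at h4
        exact h4.symm
      have h5 : (fun j => ((v j : ℤ) : K)) = ∑ k, ((b.repr ⟨v, hv⟩ k : ℤ) : K) •
          (fun j => (((b k : M) : Fin r → ℤ) j : K)) := by
        funext j
        rw [h3 j, Finset.sum_apply]
        push_cast
        rfl
      rw [SetLike.mem_coe, h5]
      exact Submodule.sum_mem _ fun k _ => Submodule.smul_mem _ _ (Submodule.subset_span ⟨k, rfl⟩)
    rw [h, top_le_iff] at h1
    have h2 := finrank_range_le_card (R := K) (fun k : Fin (finrank ℤ M) =>
          (fun j => (((b k : M) : Fin r → ℤ) j : K) : Fin r → K))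
    rw [Set.finrank, h1, finrank_top, Module.finrank_fin_fun, Fintype.card_fin] at h2
    exact h2

theorem rank_pairing {K V W G G' : Type*} [Field K] [CharZero K] [AddCommGroup V] [Module K V]
    [AddCommGroup W] [Module K W] [AddCommGroup G] (i : G →+ V)
    (hi : Submodule.span K (Set.range i) = ⊤) (i' : G' → W)
    (hi' : Submodule.span K (Set.range i') = ⊤) (B : W →ₗ[K] V →ₗ[K] K)
    [FiniteDimensional K (LinearMap.range B)] (n : G → G' → ℤ)
    (hn : ∀ f g, B (i' g) (i f) = n f g) (N : AddSubgroup G)
    (hN : ∀ f, f ∈ N ↔ ∀ g, n f g = 0) :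
    finrank ℤ (G ⧸ N) = finrank K (LinearMap.range B) := by
  -- the range is spanned by the functionals of `G'`
  have hR : LinearMap.range B = Submodule.span K (Set.range fun g => B (i' g)) := by
    rw [LinearMap.range_eq_map, ← hi', Submodule.map_span, ← Set.range_comp]
    rfl
  have hfd : FiniteDimensional K (Submodule.span K (Set.range fun g => B (i' g))) := by
    rw [← hR]; infer_instance
  obtain ⟨r, φ, hr, hφ1, hφ2, hφ3⟩ : ∃ (r : ℕ) (φ : Fin r → V →ₗ[K] K),
      r = finrank K (Submodule.span K (Set.range fun g => B (i' g))) ∧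
      (∀ i, φ i ∈ Set.range fun g => B (i' g)) ∧
      Submodule.span K (Set.range φ) = LinearMap.range B ∧ LinearIndependent K φ := by
    obtain ⟨φ, h1, h2, h3⟩ := Submodule.exists_fun_fin_finrank_span_eq K
      (Set.range fun g => B (i' g))
    exact ⟨_, φ, rfl, h1, h2.trans hR.symm, h3⟩
  choose g hg using hφ1
  have hadd : ∀ f f' h, n (f + f') h = n f h + n f' h := by
    intro f f' h
    have h1 : (n (f + f') h : K) = (n f h : K) + (n f' h : K) := by
      rw [← hn, ← hn, ← hn, map_add, map_add]
    exact_mod_cast h1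
  let Φ : G →+ (Fin r → ℤ) := AddMonoidHom.mk' (fun f j => n f (g j)) (by
    intro f f'
    funext j
    exact hadd f f' (g j))
  have hker : Φ.ker = N := by
    ext f
    rw [AddMonoidHom.mem_ker, hN]
    constructor
    · intro h g'
      have h1 : ∀ j, φ j (i f) = 0 := by
        intro j
        rw [← hg j]
        change B (i' (g j)) (i f) = 0
        rw [hn]
        have := congrFun h j
        change n f (g j) = 0 at this
        rw [this, Int.cast_zero]
      have h2 : B (i' g') ∈ Submodule.span K (Set.range φ) := by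
        rw [hφ2]
        exact ⟨_, rfl⟩
      have h3 : ∀ ψ ∈ Submodule.span K (Set.range φ), ψ (i f) = 0 := by
        intro ψ hψ
        induction hψ using Submodule.span_induction with
        | mem x hx =>
          obtain ⟨j, rfl⟩ := hx
          exact h1 j
        | zero => rfl
        | add x y _ _ hx hy => rw [LinearMap.add_apply, hx, hy, add_zero]
        | smul c x _ hx => rw [LinearMap.smul_apply, hx, smul_zero]
      have h4 := h3 _ h2
      rw [hn] at h4
      exact_mod_cast h4
    · intro h
      funext j
      exact h (g j)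
  have h1 : finrank ℤ (G ⧸ N) = finrank ℤ (LinearMap.range Φ.toIntLinearMap) := by
    have e1 : G ⧸ N ≃+ G ⧸ Φ.ker := QuotientAddGroup.quotientAddEquivOfEq hker.symm
    have e2 : G ⧸ Φ.ker ≃+ Φ.range := QuotientAddGroup.quotientKerEquivRange Φ
    exact ((e1.trans e2).toIntLinearEquiv).finrank_eq
  rw [h1, hR, ← hr]
  apply rank_sub (K := K)
  by_contra hne
  obtain ⟨L, hL0, hL⟩ := Submodule.exists_le_ker_of_lt_top _ (lt_top_iff_ne_top.2 hne)
  apply hL0
  -- the coordinates of the functional
  have h2 : ∀ f : G, ∑ j, L (Pi.single j 1) * φ j (i f) = 0 := by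
    intro f
    have h3 : (fun j => ((n f (g j) : ℤ) : K)) ∈ LinearMap.ker L :=
      hL (Submodule.subset_span ⟨Φ f, ⟨f, rfl⟩, rfl⟩)
    rw [LinearMap.mem_ker, LinearMap.pi_apply_eq_sum_univ L] at h3
    rw [← h3]
    refine Finset.sum_congr rfl fun j _ => ?_
    rw [← hg j]
    change L (Pi.single j 1) * B (i' (g j)) (i f) = _
    rw [hn, smul_eq_mul, mul_comm]
    congr 2
    funext k
    rw [Pi.single_apply]
    by_cases hk : k = j
    · rw [if_pos hk, if_pos hk.symm]
    · rw [if_neg hk, if_neg (Ne.symm hk)]
  have h4 : ∑ j, L (Pi.single j 1) • φ j = 0 := by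
    have h5 : ∀ v ∈ Submodule.span K (Set.range i), (∑ j, L (Pi.single j 1) • φ j) v = 0 := by
      intro v hv
      induction hv using Submodule.span_induction with
      | mem x hx =>
        obtain ⟨f, rfl⟩ := hx
        rw [LinearMap.sum_apply]
        simp only [LinearMap.smul_apply, smul_eq_mul]
        exact h2 f
      | zero => rw [map_zero]
      | add x y _ _ hx hy => rw [map_add, hx, hy, add_zero]
      | smul c x _ hx => rw [map_smul, hx, smul_zero]
    apply LinearMap.ext
    intro v
    exact h5 v (by rw [hi]; exact Submodule.mem_top)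
  have h6 := Fintype.linearIndependent_iff.1 hφ3 _ h4
  apply LinearMap.pi_ext'
  intro j
  apply LinearMap.ext_ring
  rw [LinearMap.comp_apply, LinearMap.single_apply, LinearMap.zero_comp, LinearMap.zero_apply]
  exact h6 j

end Pool.Agent.Y427.ZI
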