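import Pool.Agent.Y121.ZI.Stm
import Pool.Agent.Y427.ZI.RankCore

/-!
ZI-RANK (helper121): the rank modulo numerical equivalence is the rank of the trace form (helper427)
-/

set_option autoImplicit false

universe u v w

namespace Pool.Agent.Y427.ZI

open Module Pool.Agent.Y133.Half Pool.Agent.Y121.ZI Pool.Agent.Y121.ZI.NCTheory

variable {K : Type u} [Field K] [CharZero K] (T : NCTheory.{u, v, w} K)

omit [CharZero K] in
theorem par_one : T.par T.one = LinearMap.id := by
  apply LinearMap.ext
  intro x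
  obtain ⟨c, rfl⟩ := T.line.2.1 x
  rw [map_smul, T.line.2.2, LinearMap.id_apply]

omit [CharZero K] in
theorem finrank_one' : finrank K (T.H T.one) = 1 := by
  apply finrank_eq_one T.e T.line.1
  intro x
  obtain ⟨c, hc⟩ := T.line.2.1 x
  exact ⟨c, hc.symm⟩

theorem rank : SRank T := by
  intro Z
  -- the integral pairing
  have hex : ∀ (f : T.cor T.one Z) (g : T.cor Z T.one), ∃ n : ℤ,
      (g : T.H Z →ₗ[K] T.H T.one) ∘ₗ (f : T.H T.one →ₗ[K] T.H Z) = n • LinearMap.id := by
    intro f g
    exact T.cor_one _ (T.cor_comp T.one Z T.one f.1 f.2 g.1 g.2)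
  choose n hn using hex
  let i : T.cor T.one Z →+ T.S T.one Z := AddMonoidHom.mk' (fun f => ⟨f, of_cor f.2⟩)
    (fun f f' => rfl)
  let i' : T.cor Z T.one → T.S Z T.one := fun g => ⟨g, of_cor g.2⟩
  have hi : Submodule.span K (Set.range i) = ⊤ := by
    have h1 : Set.range i = ((↑) : T.S T.one Z → (T.H T.one →ₗ[K] T.H Z)) ⁻¹'
        (T.cor T.one Z : Set (T.H T.one →ₗ[K] T.H Z)) := by
      ext x
      constructor
      · rintro ⟨f, rfl⟩
        exact f.2
      · intro hx
        exact ⟨⟨x, hx⟩, Subtype.ext rfl⟩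
    rw [h1]
    exact Submodule.span_span_coe_preimage
  have hi' : Submodule.span K (Set.range i') = ⊤ := by
    have h1 : Set.range i' = ((↑) : T.S Z T.one → (T.H Z →ₗ[K] T.H T.one)) ⁻¹'
        (T.cor Z T.one : Set (T.H Z →ₗ[K] T.H T.one)) := by
      ext x
      constructor
      · rintro ⟨f, rfl⟩
        exact f.2
      · intro hx
        exact ⟨⟨x, hx⟩, Subtype.ext rfl⟩
    rw [h1]
    exact Submodule.span_span_coe_preimage
  have hF : ∀ f g, F T.one Z LinearMap.id LinearMap.id (i' g) (i f) = (n f g : K) := by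
    intro f g
    rw [F_apply, par_one, LinearMap.id_comp, LinearMap.id_comp, LinearMap.id_comp]
    change LinearMap.trace K (T.H T.one) ((g : T.H Z →ₗ[K] T.H T.one) ∘ₗ
      (f : T.H T.one →ₗ[K] T.H Z)) = _
    rw [hn, map_zsmul, LinearMap.trace_id, finrank_one' T, Nat.cast_one, zsmul_one]
  have hN : ∀ f : T.cor T.one Z, f ∈ numTriv (T.cor T.one Z) (T.cor Z T.one) ↔
      ∀ g, n f g = 0 := by
    intro f
    constructor
    · intro h g
      have h1 := h g g.2
      rw [hn f g] at h1
      have h2 := congrArg (fun φ : T.H T.one →ₗ[K] T.H T.one => φ T.e) h1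
      simp only [LinearMap.smul_apply, LinearMap.id_apply, LinearMap.zero_apply] at h2
      rw [← Int.cast_smul_eq_zsmul K, smul_eq_zero] at h2
      rcases h2 with h2 | h2
      · exact_mod_cast h2
      · exact absurd h2 T.line.1
    · intro h g hg
      have h1 := hn f ⟨g, hg⟩
      rw [h ⟨g, hg⟩, zero_smul] at h1
      exact h1
  exact rank_pairing (K := K) i hi i' hi' (F T.one Z LinearMap.id LinearMap.id) n hF
    (numTriv (T.cor T.one Z) (T.cor Z T.one)) hN

end Pool.Agent.Y427.ZI
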